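import Mathlib
import Pool.Agent.W973.CES.Defs

/-!
# Project CES: full preference lists
-/

set_option autoImplicit false

namespace Pool.Agent.W428.CES.Ord

open Pool.Agent.W973.CES Pool.Agent.NPC

/-- positions in an increasing list -/
lemma idxOf_lt_iff (L : List ℕ) (hL : L.Pairwise (· < ·)) {y z : ℕ} (hy : y ∈ L) (hz : z ∈ L) :
    L.idxOf y < L.idxOf z ↔ y < z := by
  have hy' : L.idxOf y < L.length := List.idxOf_lt_length_iff.2 hy
  have hz' : L.idxOf z < L.length := List.idxOf_lt_length_iff.2 hz
  have ey : L[L.idxOf y] = y := List.getElem_idxOf hy'
  have ez : L[L.idxOf z] = z := List.getElem_idxOf hz'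
  rw [List.pairwise_iff_getElem] at hL
  constructor
  · intro h
    have := hL _ _ hy' hz' h
    rwa [ey, ez] at this
  · intro h
    by_contra hcon
    push Not at hcon
    rcases lt_or_eq_of_le hcon with h1 | h1
    · have := hL _ _ hz' hy' h1
      rw [ey, ez] at this
      omega
    · have e : y = z := by
        rw [← ey, ← ez]
        congr 1
        exact h1.symm
      omega

theorem ord : S_ORD := by
  intro n t ht hlt
  have hLs : ((List.range n).filter fun z => decide (z ∉ t)).Pairwise (· < ·) :=
    List.Pairwise.filter _ List.pairwise_lt_range
  constructor
  · unfold full
    rw [List.perm_ext_iff_of_nodup]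
    · intro a
      rw [List.mem_append, List.mem_filter, List.mem_range, decide_eq_true_iff]
      constructor
      · rintro (h | h)
        · exact hlt a h
        · exact h.1
      · intro h
        by_cases ha : a ∈ t
        · exact Or.inl ha
        · exact Or.inr ⟨h, ha⟩
    · rw [List.nodup_append]
      refine ⟨ht, List.Nodup.filter _ List.nodup_range, ?_⟩
      intro a ha b hb hab
      subst hab
      rw [List.mem_filter, decide_eq_true_iff] at hb
      exact hb.2 ha
    · exact List.nodup_range
  · intro y hy z hz
    unfold Before Lt full
    have hmem : ∀ x, x < n → x ∉ t → x ∈ (List.range n).filter fun z => decide (z ∉ t) := by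
      intro x hx hxt
      rw [List.mem_filter, List.mem_range, decide_eq_true_iff]
      exact ⟨hx, hxt⟩
    by_cases hyt : y ∈ t
    · have hyl : t.idxOf y < t.length := List.idxOf_lt_length_iff.2 hyt
      rw [List.idxOf_append_of_mem hyt]
      by_cases hzt : z ∈ t
      · have hzl : t.idxOf z < t.length := List.idxOf_lt_length_iff.2 hzt
        rw [List.idxOf_append_of_mem hzt]
        constructor
        · exact Or.inl
        · rintro (h | ⟨h1, h2⟩)
          · exact h
          · exfalso
            have ey : t[t.idxOf y] = y := List.getElem_idxOf hyl
            have ez : t[t.idxOf z] = z := List.getElem_idxOf hzl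
            have e : y = z := by
              rw [← ey, ← ez]
              congr 1
            omega
      · rw [List.idxOf_append_of_notMem hzt]
        have hzl : t.idxOf z = t.length := List.idxOf_eq_length hzt
        constructor
        · intro _
          left
          omega
        · intro _
          omega
    · have hyl : t.idxOf y = t.length := List.idxOf_eq_length hyt
      rw [List.idxOf_append_of_notMem hyt]
      by_cases hzt : z ∈ t
      · have hzl : t.idxOf z < t.length := List.idxOf_lt_length_iff.2 hzt
        rw [List.idxOf_append_of_mem hzt]
        constructor
        · intro h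
          omega
        · rintro (h | ⟨h1, h2⟩)
          · omega
          · omega
      · rw [List.idxOf_append_of_notMem hzt]
        have hzl : t.idxOf z = t.length := List.idxOf_eq_length hzt
        have key := idxOf_lt_iff _ hLs (hmem y hy hyt) (hmem z hz hzt)
        constructor
        · intro h
          right
          exact ⟨by omega, key.1 (by omega)⟩
        · rintro (h | ⟨h1, h2⟩)
          · omega
          · have := key.2 h2
            omega

end Pool.Agent.W428.CES.Ord
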